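import Pool.Agent.W190.A16
import Pool.Agent.Q260.GM.Wd
import Pool.Agent.Q213.GM.Upper
import Pool.Agent.Q260.LF.Fin

set_option autoImplicit false

/-!
# Large differences of `ψ(x) - x` on every long window if the Riemann hypothesis fails
-/

namespace Pool.Agent.Q260.LB

open MeasureTheory Filter Topology Set
open Pool.Agent.Q260.GM (ph Dl exp_change)
open Pool.Agent.Q213.GM (ph_le ph_sq_ii Dl_sq_ii block)

lemma SF_psi (y : ℝ) : Pool.Agent.W190.SF (fun n => ArithmeticFunction.vonMangoldt n) y = Chebyshev.psi y := by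
  unfold Pool.Agent.W190.SF Chebyshev.psi
  rfl

lemma ph_meas : Measurable ph := by
  unfold ph
  exact (Chebyshev.psi_mono.measurable.comp Real.measurable_exp).sub Real.measurable_exp

lemma ph_ii (a b : ℝ) : IntervalIntegrable ph volume a b := by
  obtain ⟨C, hC0, hC⟩ := ph_le
  have h : IntervalIntegrable (fun w => C * Real.exp w) volume a b :=
    (by fun_prop : Continuous fun w => C * Real.exp w).intervalIntegrable _ _
  refine h.mono_fun' ph_meas.aestronglyMeasurable (ae_of_all _ fun w => ?_)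
  exact hC w

/-- a zero to the right of the line `Re s = θ` -/
theorem window_ph {θ : ℝ} (hθ : 1 / 2 ≤ θ) (hz : ∃ s : ℂ, riemannZeta s = 0 ∧ θ < s.re) :
    ∀ᶠ w : ℝ in atTop, Real.exp (θ * w) / 2 ≤ ∫ v in w..(w + Real.log 2), |ph v| := by
  have h := Pool.Agent.W190.mangoldt_window (κ := 0) (θ := θ) (c := 1) (δ := 0) le_rfl one_pos
    (by norm_num) hθ (by nlinarith [sq_nonneg (2 * θ - 1)]) hz
  have h2 := Real.tendsto_exp_atTop.eventually h
  filter_upwards [h2] with w hw
  have h3 := hw Polynomial.X (by simp)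
  simp only [SF_psi, Polynomial.eval_X, Real.rpow_zero, div_one, one_mul] at h3
  have e1 : Real.exp w + Real.exp w = Real.exp (w + Real.log 2) := by
    rw [Real.exp_add, Real.exp_log (by norm_num)]; ring
  rw [e1] at h3
  have hl2 : 0 < Real.log 2 := Real.log_pos (by norm_num)
  have h4 : ∫ y in Real.exp w..Real.exp (w + Real.log 2), |Chebyshev.psi y - y| =
      ∫ v in w..(w + Real.log 2), |ph v| * Real.exp v := by
    rw [exp_change _ (by linarith : w ≤ w + Real.log 2)]
    refine intervalIntegral.integral_congr fun u _ => ?_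
    show Real.exp u * |Chebyshev.psi (Real.exp u) - Real.exp u| = |ph u| * Real.exp u
    unfold ph
    ring
  rw [h4] at h3
  have h5 : ∫ v in w..(w + Real.log 2), |ph v| * Real.exp v ≤
      ∫ v in w..(w + Real.log 2), |ph v| * (2 * Real.exp w) := by
    refine intervalIntegral.integral_mono_on (by linarith)
      ((ph_ii _ _).abs.mul_continuousOn (by fun_prop)) ((ph_ii _ _).abs.mul_const _) fun v hv => ?_
    apply mul_le_mul_of_nonneg_left _ (abs_nonneg _)
    calc Real.exp v ≤ Real.exp (w + Real.log 2) := Real.exp_le_exp.2 hv.2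
      _ = 2 * Real.exp w := by rw [← e1]; ring
  rw [intervalIntegral.integral_mul_const] at h5
  have h6 : Real.exp w ^ (1 + θ) = Real.exp w * Real.exp (θ * w) := by
    rw [← Real.exp_mul, ← Real.exp_add]; ring_nf
  rw [h6] at h3
  have h7 : Real.exp w * Real.exp (θ * w) < Real.exp w * (2 * ∫ v in w..(w + Real.log 2), |ph v|) := by
    calc _ < _ := h3
      _ ≤ _ := h5
      _ = _ := by ring
  have h8 := lt_of_mul_lt_mul_left h7 (Real.exp_pos w).le
  linarith

/-- the mean square -/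
theorem window_sq {θ : ℝ} (hθ : 1 / 2 ≤ θ) (hz : ∃ s : ℂ, riemannZeta s = 0 ∧ θ < s.re) :
    ∀ᶠ w : ℝ in atTop, Real.exp (2 * θ * w) / 4 ≤ ∫ v in w..(w + 1), ph v ^ 2 := by
  filter_upwards [window_ph hθ hz] with w hw
  set I := ∫ v in w..(w + Real.log 2), |ph v| with hI
  set J := ∫ v in w..(w + Real.log 2), ph v ^ 2 with hJ
  have hl2 : 0 < Real.log 2 := Real.log_pos (by norm_num)
  have hl21 : Real.log 2 ≤ 1 := by
    have := Real.log_le_sub_one_of_pos (x := 2) (by norm_num)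
    linarith
  have hI0 : 0 < I := lt_of_lt_of_le (by positivity) hw
  -- |ph| ≤ (ph² / I + I) / 2 on an interval of length ≤ 1
  have h1 : I ≤ ∫ v in w..(w + Real.log 2), (ph v ^ 2 / I + I) / 2 := by
    rw [hI]
    refine intervalIntegral.integral_mono_on (by linarith) (ph_ii _ _).abs
      ((((ph_sq_ii _ _).div_const _).add intervalIntegrable_const).div_const _) fun v _ => ?_
    rw [← hI, ← sq_abs (ph v)]
    rw [le_div_iff₀ (by norm_num : (0 : ℝ) < 2)]
    have : |ph v| ^ 2 / I + I - |ph v| * 2 = (|ph v| - I) ^ 2 / I := by field_simp; ring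
    have h2 : 0 ≤ (|ph v| - I) ^ 2 / I := by positivity
    linarith
  have h2 : ∫ v in w..(w + Real.log 2), (ph v ^ 2 / I + I) / 2 = (J / I + Real.log 2 * I) / 2 := by
    rw [intervalIntegral.integral_div, intervalIntegral.integral_add
      ((ph_sq_ii _ _).div_const _) intervalIntegrable_const, intervalIntegral.integral_div,
      intervalIntegral.integral_const]
    simp only [smul_eq_mul]
    ring
  rw [h2] at h1
  have h3 : I ≤ J / I := by nlinarith
  have h4 : I ^ 2 ≤ J := by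
    rw [le_div_iff₀ hI0] at h3
    nlinarith
  have h5 : Real.exp (2 * θ * w) / 4 ≤ I ^ 2 := by
    have e : Real.exp (2 * θ * w) / 4 = (Real.exp (θ * w) / 2) ^ 2 := by
      rw [div_pow, ← Real.exp_nat_mul]; norm_num; ring_nf
    rw [e]
    exact pow_le_pow_left₀ (by positivity) hw 2
  have h6 : J ≤ ∫ v in w..(w + 1), ph v ^ 2 := by
    rw [hJ]
    refine intervalIntegral.integral_mono_interval le_rfl (by linarith) (by linarith)
      (ae_of_all _ fun v => sq_nonneg _) (ph_sq_ii _ _)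
  linarith

/-- **large differences** -/
theorem large_Dl {θ : ℝ} (hθ : 1 / 2 < θ) (hz : ∃ s : ℂ, riemannZeta s = 0 ∧ θ < s.re) :
    ∀ᶠ U : ℝ in atTop, ∀ κ : ℝ, 0 < κ → κ ≤ 1 →
      κ ^ 2 * Real.exp ((2 * θ - 1) / 2 * U) ≤ ∫ u in (U / 2)..(U + 2), Dl κ u ^ 2 := by
  obtain ⟨C, hC0, hC⟩ := ph_le
  -- the growth
  have g1 : ∀ᶠ U : ℝ in atTop, 2 * U * C ^ 2 * Real.exp (U + 2) ≤ Real.exp (2 * θ * U) / 8 := by
    have h := (tendsto_rpow_mul_exp_neg_mul_atTop_nhds_zero 1 (2 * θ - 1) (by linarith)).eventually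
      (gt_mem_nhds (show (0 : ℝ) < 1 / (16 * (C ^ 2 + 1) * Real.exp 2) by positivity))
    filter_upwards [h, eventually_gt_atTop 0] with U hU hU0
    simp only [Real.rpow_one] at hU
    rw [lt_div_iff₀ (by positivity)] at hU
    have e1 : Real.exp (2 * θ * U) = Real.exp ((2 * θ - 1) * U) * Real.exp U := by
      rw [← Real.exp_add]; ring_nf
    have e2 : Real.exp (-(2 * θ - 1) * U) * Real.exp ((2 * θ - 1) * U) = 1 := by
      rw [← Real.exp_add, show -(2 * θ - 1) * U + (2 * θ - 1) * U = 0 by ring, Real.exp_zero]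
    rw [Real.exp_add, e1]
    have p1 := Real.exp_pos ((2 * θ - 1) * U)
    have p2 := Real.exp_pos U
    have h3 : U * (16 * (C ^ 2 + 1) * Real.exp 2) ≤ Real.exp ((2 * θ - 1) * U) := by
      have := mul_le_mul_of_nonneg_right hU.le p1.le
      calc U * (16 * (C ^ 2 + 1) * Real.exp 2) =
            U * (16 * (C ^ 2 + 1) * Real.exp 2) *
              (Real.exp (-(2 * θ - 1) * U) * Real.exp ((2 * θ - 1) * U)) := by rw [e2, mul_one]
        _ = U * Real.exp (-(2 * θ - 1) * U) * (16 * (C ^ 2 + 1) * Real.exp 2) *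
              Real.exp ((2 * θ - 1) * U) := by ring
        _ ≤ 1 * Real.exp ((2 * θ - 1) * U) := this
        _ = _ := one_mul _
    have h4 : 2 * U * C ^ 2 * Real.exp 2 ≤ Real.exp ((2 * θ - 1) * U) / 8 := by
      have : 0 < U * Real.exp 2 := by positivity
      nlinarith
    calc 2 * U * C ^ 2 * (Real.exp U * Real.exp 2) = (2 * U * C ^ 2 * Real.exp 2) * Real.exp U := by ring
      _ ≤ (Real.exp ((2 * θ - 1) * U) / 8) * Real.exp U := mul_le_mul_of_nonneg_right h4 p2.le
      _ = _ := by ring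
  have g2 : ∀ᶠ U : ℝ in atTop, 16 * U ^ 2 * Real.exp 3 ≤ Real.exp ((2 * θ - 1) / 2 * U) := by
    have h := (tendsto_rpow_mul_exp_neg_mul_atTop_nhds_zero 2 ((2 * θ - 1) / 2) (by linarith)).eventually
      (gt_mem_nhds (show (0 : ℝ) < 1 / (16 * Real.exp 3) by positivity))
    filter_upwards [h, eventually_gt_atTop 0] with U hU hU0
    simp only [Real.rpow_ofNat] at hU
    rw [lt_div_iff₀ (by positivity)] at hU
    have e2 : Real.exp (-((2 * θ - 1) / 2) * U) * Real.exp ((2 * θ - 1) / 2 * U) = 1 := by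
      rw [← Real.exp_add, show -((2 * θ - 1) / 2) * U + (2 * θ - 1) / 2 * U = 0 by ring, Real.exp_zero]
    have p1 := Real.exp_pos ((2 * θ - 1) / 2 * U)
    have := mul_le_mul_of_nonneg_right hU.le p1.le
    calc 16 * U ^ 2 * Real.exp 3 = 16 * U ^ 2 * Real.exp 3 *
          (Real.exp (-((2 * θ - 1) / 2) * U) * Real.exp ((2 * θ - 1) / 2 * U)) := by rw [e2, mul_one]
      _ = U ^ 2 * Real.exp (-((2 * θ - 1) / 2) * U) * (16 * Real.exp 3) *
          Real.exp ((2 * θ - 1) / 2 * U) := by ring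
      _ ≤ 1 * Real.exp ((2 * θ - 1) / 2 * U) := this
      _ = _ := one_mul _
  filter_upwards [window_sq hθ.le hz, g1, g2, eventually_ge_atTop 4] with U hU hg1 hg2 hU4 κ hκ hκ1
  set N : ℕ := ⌈(U / 2 + 1) / κ⌉₊ with hN
  have hN1 : U / 2 + 1 ≤ N * κ := by
    have := Nat.le_ceil ((U / 2 + 1) / κ)
    rwa [div_le_iff₀ hκ] at this
  have hN2 : N * κ ≤ U / 2 + 1 + κ := by
    have := (Nat.ceil_lt_add_one (show 0 ≤ (U / 2 + 1) / κ by positivity)).le
    have h2 := mul_le_mul_of_nonneg_right this hκ.le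
    have e : ((U / 2 + 1) / κ + 1) * κ = U / 2 + 1 + κ := by field_simp
    rw [e] at h2
    exact h2
  have hN3 : (N : ℝ) * κ ≤ U := by linarith
  have hb := block hκ (L := U / 2) N hC
  have h1 : Real.exp (2 * θ * U) / 4 ≤ ∫ w in (U / 2)..(U / 2 + N * κ), ph w ^ 2 := by
    refine hU.trans ?_
    refine intervalIntegral.integral_mono_interval (by linarith) (by linarith) (by linarith)
      (ae_of_all _ fun v => sq_nonneg _) (ph_sq_ii _ _)
  set I := ∫ u in (U / 2)..(U / 2 + N * κ), Dl κ u ^ 2 with hI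
  have hI0 : 0 ≤ I := intervalIntegral.integral_nonneg (by linarith) fun u _ => sq_nonneg _
  have h2 : I ≤ ∫ u in (U / 2)..(U + 2), Dl κ u ^ 2 := by
    refine intervalIntegral.integral_mono_interval le_rfl (by linarith) (by linarith)
      (ae_of_all _ fun v => sq_nonneg _) (Dl_sq_ii _ _ _)
  refine le_trans ?_ h2
  have hN0 : (0 : ℝ) ≤ N := Nat.cast_nonneg _
  have h3 : (N : ℝ) * (2 * κ * (C * Real.exp (U / 2 + κ)) ^ 2) ≤ 2 * U * C ^ 2 * Real.exp (U + 2) := by
    have e : Real.exp (U / 2 + κ) ^ 2 = Real.exp (U + 2 * κ) := by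
      rw [← Real.exp_nat_mul]; push_cast; ring_nf
    rw [mul_pow, e]
    have h4 : Real.exp (U + 2 * κ) ≤ Real.exp (U + 2) := Real.exp_le_exp.2 (by linarith)
    calc (N : ℝ) * (2 * κ * (C ^ 2 * Real.exp (U + 2 * κ))) = 2 * (N * κ) * C ^ 2 * Real.exp (U + 2 * κ) := by ring
      _ ≤ 2 * U * C ^ 2 * Real.exp (U + 2) := by gcongr
  have h4 : (N : ℝ) * (2 * (N * Real.exp (U / 2 + κ + N * κ)) * I) ≤
      2 * (U / κ) ^ 2 * Real.exp (U + 3) * I := by
    have h5 : (N : ℝ) ≤ U / κ := by rwa [le_div_iff₀ hκ]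
    have h6 : Real.exp (U / 2 + κ + N * κ) ≤ Real.exp (U + 3) := Real.exp_le_exp.2 (by linarith)
    calc (N : ℝ) * (2 * (N * Real.exp (U / 2 + κ + N * κ)) * I) =
          2 * (N : ℝ) ^ 2 * Real.exp (U / 2 + κ + N * κ) * I := by ring
      _ ≤ _ := by gcongr
  have h7 : Real.exp (2 * θ * U) / 8 ≤ 2 * (U / κ) ^ 2 * Real.exp (U + 3) * I := by
    have : (N : ℝ) * (2 * κ * (C * Real.exp (U / 2 + κ)) ^ 2 +
        2 * (N * Real.exp (U / 2 + κ + N * κ)) * I) =
        (N : ℝ) * (2 * κ * (C * Real.exp (U / 2 + κ)) ^ 2) +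
        (N : ℝ) * (2 * (N * Real.exp (U / 2 + κ + N * κ)) * I) := by ring
    rw [this] at hb
    linarith
  -- solve for I
  have e3 : Real.exp (2 * θ * U) = Real.exp ((2 * θ - 1) / 2 * U) * Real.exp ((2 * θ - 1) / 2 * U) *
      Real.exp U := by
    rw [← Real.exp_add, ← Real.exp_add]; ring_nf
  rw [e3, Real.exp_add U 3] at h7
  set E := Real.exp ((2 * θ - 1) / 2 * U) with hE
  have hE0 : 0 < E := Real.exp_pos _
  have h8 : E * E ≤ 16 * U ^ 2 * Real.exp 3 * (I / κ ^ 2) := by
    have p := Real.exp_pos U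
    have h9 : E * E * Real.exp U ≤ 16 * U ^ 2 * Real.exp 3 * (I / κ ^ 2) * Real.exp U := by
      calc E * E * Real.exp U = 8 * (E * E * Real.exp U / 8) := by ring
        _ ≤ 8 * (2 * (U / κ) ^ 2 * (Real.exp U * Real.exp 3) * I) := by linarith
        _ = _ := by field_simp; ring
    exact le_of_mul_le_mul_right h9 p
  have h9 : E * E ≤ E * (I / κ ^ 2) := by
    refine h8.trans ?_
    exact mul_le_mul_of_nonneg_right hg2 (by positivity)
  have h10 : E ≤ I / κ ^ 2 := le_of_mul_le_mul_left h9 hE0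
  rw [le_div_iff₀ (by positivity)] at h10
  linarith

/-- a zero to the right of the critical line -/
lemma exists_zero (h : ¬ RiemannHypothesis) : ∃ θ : ℝ, 1 / 2 < θ ∧
    ∃ s : ℂ, riemannZeta s = 0 ∧ θ < s.re := by
  by_contra hcon
  refine h (Pool.Agent.Q260.LF.RH_of fun s hs hs0 => hcon ⟨(1 / 2 + s.re) / 2, by linarith, s, hs0, by linarith⟩)

end Pool.Agent.Q260.LB
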