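import Pool.Agent.Q260.LB.A
import Pool.Agent.Q260.GM.Xi

set_option autoImplicit false

/-!
# The weighted lower bound on a long window
-/

namespace Pool.Agent.Q260.LB

open MeasureTheory Filter Topology Set
open Pool.Agent.Q260.GM
open Pool.Agent.Q213.GM (Dl_sq_ii Dl_meas)

/-- the weighted integral over a window -/
noncomputable def WI (κ a A B : ℝ) : ℝ :=
  ∫ u in (A * LL κ)..(B * LL κ), Dl κ u ^ 2 * Real.exp (-(2 * (a / LL κ) * u))

lemma W_ii (κ c x y : ℝ) : IntervalIntegrable (fun u => Dl κ u ^ 2 * Real.exp (-(2 * c * u))) volume x y :=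
  (Dl_sq_ii κ x y).mul_continuousOn (by fun_prop)

lemma tail_le (hL2 : L2psi) {κ a B : ℝ} (hκ : 0 < κ) (hL : 0 < LL κ) (ha : 0 < a) (hB : 0 ≤ B) :
    SS κ (a / LL κ) ≤ (∫ u in (0 : ℝ)..(B * LL κ), Dl κ u ^ 2 * Real.exp (-(2 * (a / LL κ) * u))) +
      Real.exp (-(a * B)) * SS κ (a / 2 / LL κ) := by
  have hi := Dl_sq_int hL2 hκ (x := a / LL κ) (by positivity)
  have hi2 := Dl_sq_int hL2 hκ (x := a / 2 / LL κ) (by positivity)
  have hBL : 0 ≤ B * LL κ := by positivity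
  have h1 : SS κ (a / LL κ) = (∫ u in (0 : ℝ)..(B * LL κ), Dl κ u ^ 2 * Real.exp (-(2 * (a / LL κ) * u))) +
      ∫ u in Ioi (B * LL κ), Dl κ u ^ 2 * Real.exp (-(2 * (a / LL κ) * u)) := by
    unfold SS
    rw [intervalIntegral.integral_of_le hBL, ← setIntegral_union (Set.Ioc_disjoint_Ioi le_rfl)
      measurableSet_Ioi (hi.mono_set Ioc_subset_Ioi_self) (hi.mono_set (Ioi_subset_Ioi hBL)),
      Ioc_union_Ioi_eq_Ioi hBL]
  rw [h1]
  refine add_le_add_right ?_ _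
  have h2 : ∫ u in Ioi (B * LL κ), Dl κ u ^ 2 * Real.exp (-(2 * (a / LL κ) * u)) ≤
      ∫ u in Ioi (B * LL κ), Real.exp (-(a * B)) * (Dl κ u ^ 2 * Real.exp (-(2 * (a / 2 / LL κ) * u))) := by
    refine setIntegral_mono_on (hi.mono_set (Ioi_subset_Ioi hBL))
      ((hi2.mono_set (Ioi_subset_Ioi hBL)).const_mul _) measurableSet_Ioi fun u hu => ?_
    have h3 : B * LL κ ≤ u := (mem_Ioi.1 hu).le
    have h4 : a * B ≤ a / LL κ * u := by
      rw [div_mul_eq_mul_div, le_div_iff₀ hL]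
      nlinarith
    have h5 : Real.exp (-(2 * (a / LL κ) * u)) ≤
        Real.exp (-(a * B)) * Real.exp (-(2 * (a / 2 / LL κ) * u)) := by
      rw [← Real.exp_add]
      apply Real.exp_le_exp.2
      have e : 2 * (a / 2 / LL κ) * u = a / LL κ * u := by ring
      rw [e]
      linarith
    calc Dl κ u ^ 2 * Real.exp (-(2 * (a / LL κ) * u)) ≤
          Dl κ u ^ 2 * (Real.exp (-(a * B)) * Real.exp (-(2 * (a / 2 / LL κ) * u))) :=
          mul_le_mul_of_nonneg_left h5 (sq_nonneg _)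
      _ = _ := by ring
  refine h2.trans ?_
  rw [integral_const_mul]
  apply mul_le_mul_of_nonneg_left _ (Real.exp_pos _).le
  unfold SS
  exact setIntegral_mono_set hi2 (ae_of_all _ fun u => by positivity) (Ioi_subset_Ioi hBL).eventuallyLE

/-- **the window under the Riemann hypothesis** -/
theorem U_rh (hRH : RiemannHypothesis) (hL2 : L2psi) {A ε : ℝ} (hA : 1 ≤ A) (hε : 0 < ε) :
    ∃ a0 : ℝ, 0 < a0 ∧ ∀ a : ℝ, 0 < a → a ≤ a0 → ∃ B : ℝ, A < B ∧
      ∀ᶠ κ : ℝ in 𝓝[>] 0, (1 - ε) / (2 * a) * (κ * LL κ ^ 2) ≤ WI κ a A B := by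
  obtain ⟨C, hC, hcr⟩ := crude hRH hL2
  obtain ⟨K, hK, hR⟩ := R_crude
  set C2 : ℝ := 2 + 5 * K / 2 with hC2
  have hC20 : 0 < C2 := by positivity
  have hden : 0 < 4 * (3 / 2 + C * A) := by positivity
  refine ⟨min (1 / 3) (ε / (4 * (3 / 2 + C * A))), lt_min (by norm_num) (by positivity),
    fun a ha0 haa => ?_⟩
  have ha1 : a ≤ 1 / 3 := haa.trans (min_le_left _ _)
  have ha2 : 3 / 2 + C * A ≤ ε / (4 * a) := by
    have h1 : a ≤ ε / (4 * (3 / 2 + C * A)) := haa.trans (min_le_right _ _)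
    rw [le_div_iff₀ hden] at h1
    rw [le_div_iff₀ (by positivity)]
    linarith
  obtain ⟨B, hAB, hB⟩ : ∃ B : ℝ, A < B ∧ Real.exp (-(a * B)) * C2 ≤ ε / 4 := by
    have h1 : Tendsto (fun B : ℝ => Real.exp (-(a * B)) * C2) atTop (𝓝 (0 * C2)) := by
      refine Tendsto.mul_const _ (Real.tendsto_exp_neg_atTop_nhds_zero.comp ?_)
      exact tendsto_id.const_mul_atTop ha0
    rw [zero_mul] at h1
    obtain ⟨B, h2, h3⟩ := ((h1.eventually (gt_mem_nhds (show (0 : ℝ) < ε / 4 by positivity))).and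
      (eventually_gt_atTop A)).exists
    exact ⟨B, h3, h2.le⟩
  refine ⟨B, hAB, ?_⟩
  have hB0 : 0 ≤ B := by linarith
  filter_upwards [SS_low hRH hL2 ha0 (by linarith) (ε := 1) one_pos, hcr A hA,
    SS_of_R hRH hL2 hK hR (a := a / 2) (by positivity) (by linarith) (by linarith) (ε := 1) one_pos,
    ev_pos, ev_L 1] with κ k1 k2 k3 hκ hL
  have hLp : 0 < LL κ := by linarith
  have hQ : 0 < κ * LL κ ^ 2 := by positivity
  have k4 := tail_le hL2 hκ hLp ha0 hB0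
  have hAL : 0 ≤ A * LL κ := by positivity
  have hABL : A * LL κ ≤ B * LL κ := mul_le_mul_of_nonneg_right hAB.le hLp.le
  have k5 : (∫ u in (0 : ℝ)..(B * LL κ), Dl κ u ^ 2 * Real.exp (-(2 * (a / LL κ) * u))) =
      (∫ u in (0 : ℝ)..(A * LL κ), Dl κ u ^ 2 * Real.exp (-(2 * (a / LL κ) * u))) + WI κ a A B :=
    (intervalIntegral.integral_add_adjacent_intervals (W_ii _ _ _ _) (W_ii _ _ _ _)).symm
  have k6 : (∫ u in (0 : ℝ)..(A * LL κ), Dl κ u ^ 2 * Real.exp (-(2 * (a / LL κ) * u))) ≤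
      ∫ u in (0 : ℝ)..(A * LL κ), Dl κ u ^ 2 := by
    refine intervalIntegral.integral_mono_on hAL (W_ii _ _ _ _) (Dl_sq_ii _ _ _) fun u hu => ?_
    have : Real.exp (-(2 * (a / LL κ) * u)) ≤ 1 := by
      apply Real.exp_le_one_iff.2
      have := hu.1
      have : 0 ≤ 2 * (a / LL κ) * u := by positivity
      linarith
    calc Dl κ u ^ 2 * Real.exp (-(2 * (a / LL κ) * u)) ≤ Dl κ u ^ 2 * 1 :=
          mul_le_mul_of_nonneg_left this (sq_nonneg _)
      _ = _ := mul_one _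
  have k7 : Real.exp (-(a * B)) * SS κ (a / 2 / LL κ) ≤ ε / (4 * a) * (κ * LL κ ^ 2) := by
    have h1 : (1 / (a / 2) - 1) / 2 + 5 * (K - 1) / (4 * (a / 2)) + 1 ≤ C2 / a := by
      rw [hC2, le_div_iff₀ ha0]
      have e : ((1 / (a / 2) - 1) / 2 + 5 * (K - 1) / (4 * (a / 2)) + 1) * a =
          1 + 5 * (K - 1) / 2 + a / 2 := by field_simp; ring
      rw [e]
      linarith
    calc Real.exp (-(a * B)) * SS κ (a / 2 / LL κ) ≤
          Real.exp (-(a * B)) * (C2 / a * (κ * LL κ ^ 2)) := by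
          apply mul_le_mul_of_nonneg_left _ (Real.exp_pos _).le
          exact k3.trans (mul_le_mul_of_nonneg_right h1 hQ.le)
      _ = (Real.exp (-(a * B)) * C2) / a * (κ * LL κ ^ 2) := by ring
      _ ≤ (ε / 4) / a * (κ * LL κ ^ 2) := by gcongr
      _ = _ := by rw [div_div]
  have k8 : (1 - ε) / (2 * a) ≤ (1 / a - 1) / 2 - 1 - C * A - ε / (4 * a) := by
    have e : (1 / a - 1) / 2 - 1 - C * A - ε / (4 * a) - (1 - ε) / (2 * a) =
        ε / (4 * a) - (3 / 2 + C * A) := by field_simp; ring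
    linarith
  calc (1 - ε) / (2 * a) * (κ * LL κ ^ 2) ≤
        ((1 / a - 1) / 2 - 1 - C * A - ε / (4 * a)) * (κ * LL κ ^ 2) :=
        mul_le_mul_of_nonneg_right k8 hQ.le
    _ = ((1 / a - 1) / 2 - 1) * (κ * LL κ ^ 2) - C * A * (κ * LL κ ^ 2) -
        ε / (4 * a) * (κ * LL κ ^ 2) := by ring
    _ ≤ WI κ a A B := by linarith

lemma q_lim : Tendsto (fun κ : ℝ => κ * LL κ ^ 2) (𝓝[>] 0) (𝓝 0) := by
  have h1 : Tendsto (fun t : ℝ => t ^ 2 * Real.exp (-t)) atTop (𝓝 0) := by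
    simpa using Real.tendsto_pow_mul_exp_neg_atTop_nhds_zero 2
  have h2 := h1.comp LL_top
  refine h2.congr' ?_
  filter_upwards [ev_pos] with κ hκ
  show LL κ ^ 2 * Real.exp (-LL κ) = κ * LL κ ^ 2
  unfold LL
  rw [one_div, Real.log_inv, neg_neg, Real.exp_log hκ]
  ring

/-- **the window if the Riemann hypothesis fails** -/
theorem U_not (h : ¬ RiemannHypothesis) (A M a : ℝ) (hA : 0 ≤ A) (ha : 0 < a) :
    ∃ B : ℝ, A < B ∧ ∀ᶠ κ : ℝ in 𝓝[>] 0, M * (κ * LL κ ^ 2) ≤ WI κ a A B := by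
  obtain ⟨θ, hθ, hz⟩ := exists_zero h
  set η : ℝ := (2 * θ - 1) / 2 with hη
  have hη0 : 0 < η := by rw [hη]; linarith
  set B : ℝ := 2 * A + 2 / η + 1 with hB
  have hB1 : 0 < 2 / η := by positivity
  refine ⟨B, by rw [hB]; linarith, ?_⟩
  have hB0 : 0 < B := by rw [hB]; linarith
  have hU : Tendsto (fun κ : ℝ => B * LL κ - 2) (𝓝[>] 0) atTop :=
    tendsto_atTop_add_const_right _ (-2) (LL_top.const_mul_atTop hB0)
  have hq := q_lim.const_mul M
  rw [mul_zero] at hq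
  filter_upwards [hU.eventually (large_Dl hθ hz), ev_pos, ev_L 2,
    hq.eventually (gt_mem_nhds (show (0 : ℝ) < Real.exp (-(2 * a * B) - 2 * η) by positivity))]
    with κ k1 hκ hL k2
  have hLp : 0 < LL κ := by linarith
  have hκe : Real.exp (LL κ) = 1 / κ := by unfold LL; rw [Real.exp_log (by positivity)]
  have hκ1 : κ ≤ 1 := by
    have h1 : 1 ≤ Real.exp (LL κ) := Real.one_le_exp hLp.le
    rw [hκe, le_div_iff₀ hκ, one_mul] at h1
    exact h1
  have h1 := k1 κ hκ hκ1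
  rw [← hη] at h1
  have h2 : ∫ u in ((B * LL κ - 2) / 2)..(B * LL κ - 2 + 2), Dl κ u ^ 2 ≤
      ∫ u in (A * LL κ)..(B * LL κ), Dl κ u ^ 2 := by
    have hb : A * LL κ ≤ (B * LL κ - 2) / 2 := by
      have : 2 * A * LL κ + LL κ ≤ B * LL κ := by
        rw [hB]
        nlinarith [mul_pos hB1 hLp]
      linarith
    have hb2 : (B * LL κ - 2) / 2 ≤ B * LL κ - 2 + 2 := by
      have : 0 < B * LL κ := by positivity
      linarith
    refine intervalIntegral.integral_mono_interval hb hb2 (by linarith)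
      (ae_of_all _ fun v => sq_nonneg _) (Dl_sq_ii _ _ _)
  have h3 : Real.exp (-(2 * a * B)) * ∫ u in (A * LL κ)..(B * LL κ), Dl κ u ^ 2 ≤ WI κ a A B := by
    unfold WI
    rw [← intervalIntegral.integral_const_mul]
    have hAB : A * LL κ ≤ B * LL κ := mul_le_mul_of_nonneg_right (by rw [hB]; linarith) hLp.le
    refine intervalIntegral.integral_mono_on hAB ((Dl_sq_ii _ _ _).const_mul _) (W_ii _ _ _ _)
      fun u hu => ?_
    rw [mul_comm]
    apply mul_le_mul_of_nonneg_left _ (sq_nonneg _)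
    apply Real.exp_le_exp.2
    have h4 : a / LL κ * u ≤ a * B := by
      rw [div_mul_eq_mul_div, div_le_iff₀ hLp, mul_assoc]
      exact mul_le_mul_of_nonneg_left hu.2 ha.le
    linarith
  have h4 : Real.exp (-(2 * η)) ≤ κ ^ 2 * Real.exp (η * (B * LL κ - 2)) := by
    have e1 : κ ^ 2 = Real.exp (-(2 * LL κ)) := by
      have : κ = Real.exp (-LL κ) := by rw [Real.exp_neg, hκe]; simp
      conv_lhs => rw [this]
      rw [← Real.exp_nat_mul]; push_cast; ring_nf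
    rw [e1, ← Real.exp_add]
    apply Real.exp_le_exp.2
    have h5 : 2 ≤ η * B := by
      rw [hB]
      have : η * (2 / η) = 2 := by field_simp
      nlinarith
    nlinarith
  have h5 : Real.exp (-(2 * a * B) - 2 * η) = Real.exp (-(2 * a * B)) * Real.exp (-(2 * η)) := by
    rw [← Real.exp_add]; ring_nf
  calc M * (κ * LL κ ^ 2) ≤ Real.exp (-(2 * a * B) - 2 * η) := k2.le
    _ = Real.exp (-(2 * a * B)) * Real.exp (-(2 * η)) := h5
    _ ≤ Real.exp (-(2 * a * B)) * (κ ^ 2 * Real.exp (η * (B * LL κ - 2))) :=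
        mul_le_mul_of_nonneg_left h4 (Real.exp_pos _).le
    _ ≤ Real.exp (-(2 * a * B)) * ∫ u in (A * LL κ)..(B * LL κ), Dl κ u ^ 2 :=
        mul_le_mul_of_nonneg_left (h1.trans h2) (Real.exp_pos _).le
    _ ≤ _ := h3

/-- **the unconditional window** -/
theorem U_all {A ε : ℝ} (hA : 1 ≤ A) (hε : 0 < ε) :
    ∃ a0 : ℝ, 0 < a0 ∧ ∀ a : ℝ, 0 < a → a ≤ a0 → ∃ B : ℝ, A < B ∧
      ∀ᶠ κ : ℝ in 𝓝[>] 0, (1 - ε) / (2 * a) * (κ * LL κ ^ 2) ≤ WI κ a A B := by
  by_cases hRH : RiemannHypothesis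
  · exact U_rh hRH (Pool.Agent.Q296.GM.L2_of_rh hRH) hA hε
  · exact ⟨1, one_pos, fun a ha _ => U_not hRH A ((1 - ε) / (2 * a)) a (by linarith) ha⟩

end Pool.Agent.Q260.LB
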