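import Pool.Agent.Q260.LB.B

set_option autoImplicit false

/-!
# From dilations to intervals of fixed length
-/

namespace Pool.Agent.Q260.LB

open MeasureTheory Filter Topology Set
open Pool.Agent.Q260.GM
open Pool.Agent.Q213.GM (Dl_sq_ii Dl_meas)

/-- the normalised square of the error for the interval of length `e^v / T` centred at `s e^v` -/
noncomputable def GG (T s v : ℝ) : ℝ :=
  Real.exp (-v) * (Chebyshev.psi ((s + 1 / (2 * T)) * Real.exp v) -
    Chebyshev.psi ((s - 1 / (2 * T)) * Real.exp v) - Real.exp v / T) ^ 2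

lemma GG_nonneg (T s v : ℝ) : 0 ≤ GG T s v := by unfold GG; positivity

lemma GG_meas (T : ℝ) : Measurable (Function.uncurry (GG T)) := by
  unfold GG Function.uncurry
  have h1 : Measurable fun p : ℝ × ℝ => Chebyshev.psi ((p.1 + 1 / (2 * T)) * Real.exp p.2) :=
    Chebyshev.psi_mono.measurable.comp (by fun_prop)
  have h2 : Measurable fun p : ℝ × ℝ => Chebyshev.psi ((p.1 - 1 / (2 * T)) * Real.exp p.2) :=
    Chebyshev.psi_mono.measurable.comp (by fun_prop)
  exact (by fun_prop : Measurable fun p : ℝ × ℝ => Real.exp (-p.2)).mul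
    (((h1.sub h2).sub (by fun_prop)).pow_const 2)

lemma GG_le {T s v : ℝ} (hT : 1 ≤ T) (hs0 : 0 ≤ s) (hs1 : s ≤ 1) : GG T s v ≤ 289 * Real.exp v := by
  have hT0 : 0 < T := by linarith
  have e0 := Real.exp_pos v
  have hq : s + 1 / (2 * T) ≤ 2 := by
    have : 1 / (2 * T) ≤ 1 := by rw [div_le_one (by positivity)]; linarith
    linarith
  have hq0 : 0 ≤ s + 1 / (2 * T) := by positivity
  have h1 := Chebyshev.psi_le_const_mul_self (x := (s + 1 / (2 * T)) * Real.exp v) (by positivity)
  have h2 := Chebyshev.psi_nonneg ((s + 1 / (2 * T)) * Real.exp v)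
  have h3 := Chebyshev.psi_nonneg ((s - 1 / (2 * T)) * Real.exp v)
  have h4 : Chebyshev.psi ((s - 1 / (2 * T)) * Real.exp v) ≤
      Chebyshev.psi ((s + 1 / (2 * T)) * Real.exp v) := by
    apply Chebyshev.psi_mono
    apply mul_le_mul_of_nonneg_right _ e0.le
    have : 0 < 1 / (2 * T) := by positivity
    linarith
  have h5 : Real.log 4 + 4 ≤ 8 := by
    have : Real.log 4 ≤ 4 - 1 := Real.log_le_sub_one_of_pos (by norm_num)
    linarith
  have h6 : Chebyshev.psi ((s + 1 / (2 * T)) * Real.exp v) ≤ 16 * Real.exp v := by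
    calc _ ≤ (Real.log 4 + 4) * ((s + 1 / (2 * T)) * Real.exp v) := h1
      _ ≤ 8 * (2 * Real.exp v) := by
          apply mul_le_mul h5 (mul_le_mul_of_nonneg_right hq e0.le) (by positivity) (by norm_num)
      _ = _ := by ring
  have h7 : Real.exp v / T ≤ Real.exp v := div_le_self e0.le hT
  have h8 : 0 ≤ Real.exp v / T := by positivity
  have h9 : (Chebyshev.psi ((s + 1 / (2 * T)) * Real.exp v) -
      Chebyshev.psi ((s - 1 / (2 * T)) * Real.exp v) - Real.exp v / T) ^ 2 ≤ (17 * Real.exp v) ^ 2 := by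
    apply sq_le_sq'
    · linarith
    · linarith
  unfold GG
  calc _ ≤ Real.exp (-v) * (17 * Real.exp v) ^ 2 := mul_le_mul_of_nonneg_left h9 (Real.exp_pos _).le
    _ = 289 * (Real.exp (-v) * Real.exp v) * Real.exp v := by ring
    _ = 289 * Real.exp v := by rw [← Real.exp_add]; simp

lemma GG_eq {T s v : ℝ} (hT : 0 < T) (hs : 1 / (2 * T) < s) :
    GG T s v = (s - 1 / (2 * T)) *
      Dl (Real.log ((s + 1 / (2 * T)) / (s - 1 / (2 * T)))) (v + Real.log (s - 1 / (2 * T))) ^ 2 := by
  have hp : 0 < s - 1 / (2 * T) := by linarith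
  have hq : 0 < s + 1 / (2 * T) := by
    have : 0 < 1 / (2 * T) := by positivity
    linarith
  set p := s - 1 / (2 * T) with hpd
  set q := s + 1 / (2 * T) with hqd
  unfold GG Dl ph
  have e1 : Real.exp (v + Real.log p + Real.log (q / p)) = q * Real.exp v := by
    rw [Real.exp_add, Real.exp_add, Real.exp_log hp, Real.exp_log (by positivity)]
    field_simp
  have e2 : Real.exp (v + Real.log p) = p * Real.exp v := by
    rw [Real.exp_add, Real.exp_log hp]; ring
  have e3 : Real.exp (-((v + Real.log p) / 2)) ^ 2 = (p * Real.exp v)⁻¹ := by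
    rw [← Real.exp_nat_mul, ← e2, ← Real.exp_neg]; congr 1; push_cast; ring
  rw [e1, e2, mul_pow, e3, ← hqd, ← hpd, Real.exp_neg]
  have e4 : q * Real.exp v - p * Real.exp v = Real.exp v / T := by
    rw [hqd, hpd]; field_simp; ring
  have e5 : Chebyshev.psi (q * Real.exp v) - q * Real.exp v -
      (Chebyshev.psi (p * Real.exp v) - p * Real.exp v) =
      Chebyshev.psi (q * Real.exp v) - Chebyshev.psi (p * Real.exp v) - Real.exp v / T := by
    rw [← e4]; ring
  rw [e5]
  have := (Real.exp_pos v).ne'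
  field_simp

lemma GG_int {T δ s1 v1 v2 : ℝ} (hT : 1 ≤ T) (hδ : 0 ≤ δ) (hs1 : s1 ≤ 1) (c : ℝ) :
    Integrable (Function.uncurry fun s v => GG T s v * Real.exp (-(c * v)))
      ((volume.restrict (Ioc δ s1)).prod (volume.restrict (Ioc v1 v2))) := by
  have hm : Measurable (Function.uncurry fun s v => GG T s v * Real.exp (-(c * v))) :=
    (GG_meas T).mul (by fun_prop)
  rw [Measure.prod_restrict]
  refine Measure.integrableOn_of_bounded (M := 289 * Real.exp v2 * Real.exp (|c| * (|v1| + |v2|))) ?_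
    hm.aestronglyMeasurable ?_
  · rw [Measure.prod_prod]
    exact ENNReal.mul_lt_top (by simp) (by simp) |>.ne
  · refine (ae_restrict_mem (measurableSet_Ioc.prod measurableSet_Ioc)).mono fun p hp => ?_
    obtain ⟨⟨h1, h2⟩, h3, h4⟩ := hp
    show ‖GG T p.1 p.2 * Real.exp (-(c * p.2))‖ ≤ _
    rw [Real.norm_of_nonneg (mul_nonneg (GG_nonneg _ _ _) (Real.exp_pos _).le)]
    have h5 := GG_le (v := p.2) hT (hδ.trans h1.le) (h2.trans hs1)
    have h6 : GG T p.1 p.2 ≤ 289 * Real.exp v2 :=
      h5.trans (mul_le_mul_of_nonneg_left (Real.exp_le_exp.2 h4) (by norm_num))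
    have h7 : Real.exp (-(c * p.2)) ≤ Real.exp (|c| * (|v1| + |v2|)) := by
      apply Real.exp_le_exp.2
      have h8 : |p.2| ≤ |v1| + |v2| := by
        rw [abs_le]
        constructor
        · have := neg_abs_le v1
          have := abs_nonneg v2
          linarith
        · have := le_abs_self v2
          have := abs_nonneg v1
          linarith
      calc -(c * p.2) ≤ |c * p.2| := neg_le_abs _
        _ = |c| * |p.2| := abs_mul _ _
        _ ≤ _ := mul_le_mul_of_nonneg_left h8 (abs_nonneg _)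
    exact mul_le_mul h6 h7 (Real.exp_pos _).le (by positivity)

/-- the order of integration -/
lemma GG_swap {T δ s1 v1 v2 : ℝ} (hT : 1 ≤ T) (hδ : 0 ≤ δ) (hδs : δ ≤ s1) (hs1 : s1 ≤ 1) (hv : v1 ≤ v2)
    (c : ℝ) :
    ∫ s in δ..s1, ∫ v in v1..v2, GG T s v * Real.exp (-(c * v)) =
      ∫ v in v1..v2, (∫ s in δ..s1, GG T s v) * Real.exp (-(c * v)) := by
  have h := integral_integral_swap (GG_int (v1 := v1) (v2 := v2) hT hδ hs1 c)
  simp only [intervalIntegral.integral_of_le hδs, intervalIntegral.integral_of_le hv]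
  rw [h]
  refine integral_congr_ae (ae_of_all _ fun v => ?_)
  exact integral_mul_const _ _

lemma GG_inner_int {T δ s1 v1 v2 : ℝ} (hT : 1 ≤ T) (hδ : 0 ≤ δ) (hδs : δ ≤ s1) (hs1 : s1 ≤ 1) (hv : v1 ≤ v2)
    (c : ℝ) :
    IntervalIntegrable (fun s => ∫ v in v1..v2, GG T s v * Real.exp (-(c * v))) volume δ s1 := by
  rw [intervalIntegrable_iff_integrableOn_Ioc_of_le hδs]
  have h := (GG_int (v1 := v1) (v2 := v2) hT hδ hs1 c).integral_prod_left
  simp only [intervalIntegral.integral_of_le hv]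
  exact h

lemma GG_outer_int {T δ s1 v1 v2 : ℝ} (hT : 1 ≤ T) (hδ : 0 ≤ δ) (hδs : δ ≤ s1) (hs1 : s1 ≤ 1) (hv : v1 ≤ v2)
    (c : ℝ) :
    IntervalIntegrable (fun v => (∫ s in δ..s1, GG T s v) * Real.exp (-(c * v))) volume v1 v2 := by
  rw [intervalIntegrable_iff_integrableOn_Ioc_of_le hv]
  have h := (GG_int (v1 := v1) (v2 := v2) hT hδ hs1 c).integral_prod_right
  refine h.congr (ae_of_all _ fun v => ?_)
  show ∫ s in Ioc δ s1, GG T s v * Real.exp (-(c * v)) = (∫ s in δ..s1, GG T s v) * Real.exp (-(c * v))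
  rw [intervalIntegral.integral_of_le hδs, integral_mul_const]

lemma GG_s_int {T δ s1 : ℝ} (hT : 1 ≤ T) (hδ : 0 ≤ δ) (hδs : δ ≤ s1) (hs1 : s1 ≤ 1) (v : ℝ) :
    IntervalIntegrable (fun s => GG T s v) volume δ s1 := by
  rw [intervalIntegrable_iff_integrableOn_Ioc_of_le hδs]
  refine Measure.integrableOn_of_bounded (M := 289 * Real.exp v) (by simp)
    ((GG_meas T).comp (measurable_id.prodMk measurable_const)).aestronglyMeasurable ?_
  refine (ae_restrict_mem measurableSet_Ioc).mono fun s hs => ?_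
  rw [Real.norm_of_nonneg (GG_nonneg _ _ _)]
  exact GG_le hT (hδ.trans hs.1.le) (hs.2.trans hs1)

/-- the lower bound for the inner integral -/
lemma inner_low {a A B δ s1 ε : ℝ} (ha : 0 < a) (hA : 1 ≤ A) (hAB : A < B) (hδ : 0 < δ) (hs1 : s1 < 1)
    (hε : 0 < ε) (hε1 : ε ≤ 1)
    (hU : ∀ᶠ κ : ℝ in 𝓝[>] 0, (1 - ε) / (2 * a) * (κ * LL κ ^ 2) ≤ WI κ a A B) :
    ∀ᶠ T : ℝ in atTop, ∀ s ∈ Icc δ s1,
      (1 - ε) ^ 2 / (2 * a) * (Real.log T ^ 2 / T) ≤
        ∫ v in ((A - 1) * Real.log T)..((B + 1) * Real.log T),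
          GG T s v * Real.exp (-(2 * (a / Real.log T) * v)) := by
  rw [eventually_nhdsWithin_iff, Metric.eventually_nhds_iff] at hU
  obtain ⟨κ0, hκ0, hU⟩ := hU
  -- the final factor
  have hlim : Tendsto (fun T : ℝ => Real.exp (2 * a * Real.log (δ / 2) / Real.log T) *
      (1 - 1 / (T * δ)) * ((Real.log T + Real.log (δ / 2)) / Real.log T) ^ 2) atTop (𝓝 1) := by
    have l1 : Tendsto (fun T : ℝ => 2 * a * Real.log (δ / 2) / Real.log T) atTop (𝓝 0) :=
      tendsto_const_nhds.div_atTop Real.tendsto_log_atTop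
    have l2 : Tendsto (fun T : ℝ => 1 / (T * δ)) atTop (𝓝 0) :=
      tendsto_const_nhds.div_atTop (tendsto_id.atTop_mul_const hδ)
    have l3 : Tendsto (fun T : ℝ => 1 + Real.log (δ / 2) / Real.log T) atTop (𝓝 (1 + 0)) :=
      tendsto_const_nhds.add (tendsto_const_nhds.div_atTop Real.tendsto_log_atTop)
    have l4 : Tendsto (fun T : ℝ => (Real.log T + Real.log (δ / 2)) / Real.log T) atTop (𝓝 1) := by
      rw [add_zero] at l3
      refine l3.congr' ?_
      filter_upwards [eventually_gt_atTop 1] with T hT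
      have := Real.log_pos hT
      field_simp
    have l5 := (Real.continuous_exp.tendsto 0).comp l1
    have l6 := (l5.mul ((tendsto_const_nhds (x := (1 : ℝ))).sub l2)).mul (l4.pow 2)
    simpa using l6
  have hlogδ : Tendsto (fun T : ℝ => Real.log T) atTop atTop := Real.tendsto_log_atTop
  filter_upwards [hlim.eventually (lt_mem_nhds (show 1 - ε < 1 by linarith)),
    eventually_gt_atTop (1 / δ), eventually_gt_atTop (1 / (1 - s1)), eventually_gt_atTop 1,
    eventually_gt_atTop (2 / (δ * κ0)),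
    hlogδ.eventually_gt_atTop (-(A + 1) * Real.log (δ / 2))] with T k1 k2 k3 k4 k5 k6 s hs
  have hT : 0 < T := by linarith
  set D := Real.log T with hD
  have hD0 : 0 < D := Real.log_pos k4
  have hd1 : 1 / (2 * T) < δ / 2 := by
    rw [div_lt_iff₀ hδ] at k2
    rw [div_lt_iff₀ (by positivity)]
    linarith
  have hd2 : 1 / (2 * T) < 1 - s1 := by
    have : 0 < 1 - s1 := by linarith
    rw [div_lt_iff₀ this] at k3
    rw [div_lt_iff₀ (by positivity)]
    nlinarith
  have hd0 : 0 < 1 / (2 * T) := by positivity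
  set p := s - 1 / (2 * T) with hpd
  set q := s + 1 / (2 * T) with hqd
  have hp : δ / 2 < p := by rw [hpd]; linarith [hs.1]
  have hp0 : 0 < p := by linarith
  have hq : q < 1 := by rw [hqd]; linarith [hs.2]
  have hpq : p < q := by rw [hpd, hqd]; linarith
  have hq0 : 0 < q := by linarith
  have hqδ : δ < q := by rw [hqd]; linarith [hs.1]
  have hqp : q - p = 1 / T := by rw [hpd, hqd]; field_simp; ring
  set κ := Real.log (q / p) with hκd
  have hκ1 : 1 / (T * q) ≤ κ := by
    have h1 := Real.log_le_sub_one_of_pos (x := p / q) (by positivity)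
    have h2 : Real.log (p / q) = -κ := by rw [hκd, ← Real.log_inv, inv_div]
    have h3 : 1 - p / q = 1 / (T * q) := by
      have : 1 - p / q = (q - p) / q := by field_simp
      rw [this, hqp, div_div]
    linarith
  have hκ2 : κ ≤ 1 / (T * p) := by
    have h1 := Real.log_le_sub_one_of_pos (x := q / p) (by positivity)
    have h3 : q / p - 1 = 1 / (T * p) := by
      have : q / p - 1 = (q - p) / p := by field_simp
      rw [this, hqp, div_div]
    linarith
  have hκ0' : 0 < κ := lt_of_lt_of_le (by positivity) hκ1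
  have hκs : κ < κ0 := by
    have h1 : 1 / (T * p) < κ0 := by
      rw [div_lt_iff₀ (by positivity)] at k5 ⊢
      have : T * (δ / 2) * κ0 < T * p * κ0 := by gcongr
      nlinarith
    linarith
  have hLL1 : LL κ ≤ D := by
    unfold LL
    rw [one_div, Real.log_inv]
    have h1 : Real.log (1 / (T * q)) ≤ Real.log κ := Real.log_le_log (by positivity) hκ1
    rw [one_div, Real.log_inv, Real.log_mul hT.ne' hq0.ne'] at h1
    have h2 : Real.log q ≤ 0 := Real.log_nonpos hq0.le hq.le
    linarith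
  have hLL2 : D + Real.log (δ / 2) ≤ LL κ := by
    unfold LL
    rw [one_div, Real.log_inv]
    have h1 : Real.log κ ≤ Real.log (1 / (T * p)) := Real.log_le_log hκ0' hκ2
    rw [one_div, Real.log_inv, Real.log_mul hT.ne' hp0.ne'] at h1
    have h2 : Real.log (δ / 2) ≤ Real.log p := Real.log_le_log (by positivity) hp.le
    linarith
  have hlδ : Real.log (δ / 2) < 0 := Real.log_neg (by positivity) (by linarith [hs.1, hs.2])
  have hLL0 : 0 < LL κ := by
    have : -(A + 1) * Real.log (δ / 2) ≥ -Real.log (δ / 2) := by nlinarith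
    linarith
  have hlp : Real.log (δ / 2) ≤ Real.log p := Real.log_le_log (by positivity) hp.le
  have hlp0 : Real.log p ≤ 0 := Real.log_nonpos hp0.le (by linarith)
  have hW := hU (y := κ) (by rw [Real.dist_eq, sub_zero, abs_of_pos hκ0']; exact hκs) hκ0'
  -- the change of variables
  have e1 : ∫ v in ((A - 1) * D)..((B + 1) * D), GG T s v * Real.exp (-(2 * (a / D) * v)) =
      p * ∫ u in ((A - 1) * D + Real.log p)..((B + 1) * D + Real.log p),
        Dl κ u ^ 2 * Real.exp (-(2 * (a / D) * (u - Real.log p))) := by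
    rw [← intervalIntegral.integral_comp_add_right (fun u => Dl κ u ^ 2 *
      Real.exp (-(2 * (a / D) * (u - Real.log p)))), ← intervalIntegral.integral_const_mul]
    refine intervalIntegral.integral_congr fun v _ => ?_
    show GG T s v * Real.exp (-(2 * (a / D) * v)) =
      p * (Dl κ (v + Real.log p) ^ 2 * Real.exp (-(2 * (a / D) * (v + Real.log p - Real.log p))))
    rw [GG_eq hT (by linarith [hs.1] : 1 / (2 * T) < s), add_sub_cancel_right]
    ring
  rw [e1]
  have hA1 : (A - 1) * D + Real.log p ≤ A * LL κ := by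
    have h1 : A * (D + Real.log (δ / 2)) ≤ A * LL κ := mul_le_mul_of_nonneg_left hLL2 (by linarith)
    have h2 : -(A + 1) * Real.log (δ / 2) < D := k6
    nlinarith
  have hB1 : B * LL κ ≤ (B + 1) * D + Real.log p := by
    have h1 : B * LL κ ≤ B * D := mul_le_mul_of_nonneg_left hLL1 (by linarith)
    have h2 : -(A + 1) * Real.log (δ / 2) < D := k6
    nlinarith
  have hABL : A * LL κ ≤ B * LL κ := mul_le_mul_of_nonneg_right hAB.le hLL0.le
  have hii : ∀ x y : ℝ, IntervalIntegrable (fun u => Dl κ u ^ 2 *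
      Real.exp (-(2 * (a / D) * (u - Real.log p)))) volume x y := fun x y =>
    (Dl_sq_ii κ x y).mul_continuousOn (by fun_prop)
  have h2 : Real.exp (2 * a * Real.log (δ / 2) / D) * WI κ a A B ≤
      ∫ u in ((A - 1) * D + Real.log p)..((B + 1) * D + Real.log p),
        Dl κ u ^ 2 * Real.exp (-(2 * (a / D) * (u - Real.log p))) := by
    have h3 : ∫ u in (A * LL κ)..(B * LL κ), Dl κ u ^ 2 *
        Real.exp (-(2 * (a / D) * (u - Real.log p))) ≤
        ∫ u in ((A - 1) * D + Real.log p)..((B + 1) * D + Real.log p),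
        Dl κ u ^ 2 * Real.exp (-(2 * (a / D) * (u - Real.log p))) :=
      intervalIntegral.integral_mono_interval hA1 hABL hB1
        (ae_of_all _ fun v => mul_nonneg (sq_nonneg _) (Real.exp_pos _).le) (hii _ _)
    refine le_trans ?_ h3
    unfold WI
    rw [← intervalIntegral.integral_const_mul]
    refine intervalIntegral.integral_mono_on hABL ((W_ii _ _ _ _).const_mul _) (hii _ _) fun u hu => ?_
    have hu0 : 0 ≤ u := le_trans (by positivity) hu.1
    have h4 : Real.exp (2 * a * Real.log (δ / 2) / D) * Real.exp (-(2 * (a / LL κ) * u)) ≤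
        Real.exp (-(2 * (a / D) * (u - Real.log p))) := by
      rw [← Real.exp_add]
      apply Real.exp_le_exp.2
      have h5 : a / D * u ≤ a / LL κ * u :=
        mul_le_mul_of_nonneg_right (div_le_div_of_nonneg_left ha.le hLL0 hLL1) hu0
      have h6 : a / D * Real.log (δ / 2) ≤ a / D * Real.log p :=
        mul_le_mul_of_nonneg_left hlp (by positivity)
      have e7 : 2 * a * Real.log (δ / 2) / D = 2 * (a / D * Real.log (δ / 2)) := by ring
      rw [e7]
      nlinarith
    calc Real.exp (2 * a * Real.log (δ / 2) / D) * (Dl κ u ^ 2 * Real.exp (-(2 * (a / LL κ) * u))) =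
          Dl κ u ^ 2 * (Real.exp (2 * a * Real.log (δ / 2) / D) * Real.exp (-(2 * (a / LL κ) * u))) := by ring
      _ ≤ _ := mul_le_mul_of_nonneg_left h4 (sq_nonneg _)
  have h3 : (1 - 1 / (T * δ)) / T ≤ p * κ := by
    have h4 : p / (T * q) ≤ p * κ := by
      have := mul_le_mul_of_nonneg_left hκ1 hp0.le
      rwa [mul_one_div] at this
    have h5 : p / (T * q) = (1 - 1 / (T * q)) / T := by
      have : p = q - 1 / T := by linarith
      rw [this]; field_simp
    have h6 : 1 / (T * q) ≤ 1 / (T * δ) := by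
      apply one_div_le_one_div_of_le (by positivity)
      exact mul_le_mul_of_nonneg_left hqδ.le hT.le
    have h7 : (1 - 1 / (T * δ)) / T ≤ (1 - 1 / (T * q)) / T := by
      apply div_le_div_of_nonneg_right _ hT.le
      linarith
    linarith
  have h1Tδ : 0 ≤ 1 - 1 / (T * δ) := by
    have : 1 / (T * δ) ≤ 1 := by
      rw [div_le_one (by positivity)]
      rw [div_lt_iff₀ hδ] at k2
      linarith
    linarith
  have hDδ : 0 ≤ D + Real.log (δ / 2) := by
    have : -(A + 1) * Real.log (δ / 2) ≥ -Real.log (δ / 2) := by nlinarith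
    linarith
  have hsq : (D + Real.log (δ / 2)) ^ 2 ≤ LL κ ^ 2 := pow_le_pow_left₀ hDδ hLL2 2
  have hε0 : 0 ≤ 1 - ε := by linarith
  have e9 : Real.exp (2 * a * Real.log (δ / 2) / D) * (1 - 1 / (T * δ)) *
      ((D + Real.log (δ / 2)) / D) ^ 2 * ((1 - ε) / (2 * a) * (D ^ 2 / T)) =
      Real.exp (2 * a * Real.log (δ / 2) / D) * ((1 - ε) / (2 * a)) *
      ((1 - 1 / (T * δ)) / T * (D + Real.log (δ / 2)) ^ 2) := by
    field_simp
  calc (1 - ε) ^ 2 / (2 * a) * (D ^ 2 / T) = (1 - ε) * ((1 - ε) / (2 * a) * (D ^ 2 / T)) := by ring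
    _ ≤ Real.exp (2 * a * Real.log (δ / 2) / D) * (1 - 1 / (T * δ)) *
      ((D + Real.log (δ / 2)) / D) ^ 2 * ((1 - ε) / (2 * a) * (D ^ 2 / T)) :=
        mul_le_mul_of_nonneg_right k1.le (by positivity)
    _ = Real.exp (2 * a * Real.log (δ / 2) / D) * ((1 - ε) / (2 * a)) *
      ((1 - 1 / (T * δ)) / T * (D + Real.log (δ / 2)) ^ 2) := e9
    _ ≤ Real.exp (2 * a * Real.log (δ / 2) / D) * ((1 - ε) / (2 * a)) *
      (p * κ * LL κ ^ 2) := by
        apply mul_le_mul_of_nonneg_left _ (by positivity)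
        exact mul_le_mul h3 hsq (sq_nonneg _) (by positivity)
    _ = p * (Real.exp (2 * a * Real.log (δ / 2) / D) * ((1 - ε) / (2 * a) * (κ * LL κ ^ 2))) := by ring
    _ ≤ p * (Real.exp (2 * a * Real.log (δ / 2) / D) * WI κ a A B) := by
        apply mul_le_mul_of_nonneg_left _ hp0.le
        exact mul_le_mul_of_nonneg_left hW (Real.exp_pos _).le
    _ ≤ _ := mul_le_mul_of_nonneg_left h2 hp0.le

end Pool.Agent.Q260.LB
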