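import Pool.Agent.Q260.LB.C
import Pool.Agent.Y857.VP.Var

set_option autoImplicit false

/-!
# The variance of the primes in intervals of fixed length
-/

namespace Pool.Agent.Q260.LB

open MeasureTheory Filter Topology Set
open Pool.Agent.Q260.GM
open Pool.Agent.Y857.VP (psi psi_eq sq_ii null_set)

lemma exp_int_le {c v1 v2 : ℝ} (hc : 0 < c) (hv1 : 0 ≤ v1) :
    ∫ v in v1..v2, Real.exp (-(c * v)) ≤ 1 / c := by
  have h : ∀ x ∈ uIcc v1 v2, HasDerivAt (fun v => -(1 / c) * Real.exp (-(c * v))) (Real.exp (-(c * x))) x := by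
    intro x _
    have h1 : HasDerivAt (fun v : ℝ => -(c * v)) (-c) x := by
      simpa using ((hasDerivAt_id x).const_mul c).fun_neg
    have h2 := (h1.exp).const_mul (-(1 / c))
    refine h2.congr_deriv ?_
    field_simp
  rw [intervalIntegral.integral_eq_sub_of_hasDerivAt h
    ((by fun_prop : Continuous fun v => Real.exp (-(c * v))).intervalIntegrable _ _)]
  have h2 : Real.exp (-(c * v1)) ≤ 1 := Real.exp_le_one_iff.2 (by have := mul_nonneg hc.le hv1; linarith)
  have h3 := Real.exp_pos (-(c * v2))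
  have h4 : 0 < 1 / c := by positivity
  nlinarith

/-- the mean square over the centres -/
noncomputable def gg (T δ v : ℝ) : ℝ := ∫ s in δ..1, GG T s v

lemma gg_nonneg {T δ v : ℝ} (hδ : δ ≤ 1) : 0 ≤ gg T δ v :=
  intervalIntegral.integral_nonneg hδ fun s _ => GG_nonneg _ _ _

/-- **the weighted mean** -/
theorem mean_low {A δ ε : ℝ} (hA : 0 ≤ A) (hδ : 0 < δ) (hδ1 : δ < 1) (hε : 0 < ε) (hε1 : ε ≤ 1) :
    ∃ a0 : ℝ, 0 < a0 ∧ ∀ a : ℝ, 0 < a → a ≤ a0 → ∃ B : ℝ, A < B ∧ ∀ᶠ T : ℝ in atTop,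
      (1 - ε) * (1 - δ) / (2 * a) * (Real.log T ^ 2 / T) ≤
        ∫ v in (A * Real.log T)..(B * Real.log T), gg T δ v * Real.exp (-(2 * (a / Real.log T) * v)) := by
  obtain ⟨a0, ha0, hU⟩ := U_all (A := A + 1) (ε := ε / 4) (by linarith) (by positivity)
  refine ⟨a0, ha0, fun a ha haa => ?_⟩
  obtain ⟨B, hAB, hU⟩ := hU a ha haa
  refine ⟨B + 1, by linarith, ?_⟩
  set s1 : ℝ := 1 - ε / 4 * (1 - δ) with hs1
  have hd : 0 < 1 - δ := by linarith
  have hs11 : s1 < 1 := by
    rw [hs1]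
    have : 0 < ε / 4 * (1 - δ) := by positivity
    linarith
  have hδs : δ < s1 := by rw [hs1]; nlinarith
  have h := inner_low ha (by linarith) hAB hδ hs11 (by positivity) (by linarith) hU
  filter_upwards [h, eventually_ge_atTop 2] with T hT hT2
  have hT0 : 0 < T := by linarith
  have hT1 : 1 ≤ T := by linarith
  have hD : 0 < Real.log T := Real.log_pos (by linarith)
  rw [add_sub_cancel_right] at hT
  set D := Real.log T with hDd
  have hv : A * D ≤ (B + 1) * D := mul_le_mul_of_nonneg_right (by linarith) hD.le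
  have hAD : 0 ≤ A * D := by positivity
  have c1 : (s1 - δ) * ((1 - ε / 4) ^ 2 / (2 * a) * (D ^ 2 / T)) ≤
      ∫ s in δ..s1, ∫ v in (A * D)..((B + 1) * D), GG T s v * Real.exp (-(2 * (a / D) * v)) := by
    have e : (s1 - δ) * ((1 - ε / 4) ^ 2 / (2 * a) * (D ^ 2 / T)) =
        ∫ s in δ..s1, (1 - ε / 4) ^ 2 / (2 * a) * (D ^ 2 / T) := by
      rw [intervalIntegral.integral_const, smul_eq_mul]
    rw [e]
    exact intervalIntegral.integral_mono_on hδs.le intervalIntegrable_const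
      (GG_inner_int hT1 hδ.le hδs.le hs11.le hv _) fun s hs => hT s hs
  rw [GG_swap hT1 hδ.le hδs.le hs11.le hv] at c1
  have c2 : ∫ v in (A * D)..((B + 1) * D), (∫ s in δ..s1, GG T s v) * Real.exp (-(2 * (a / D) * v)) ≤
      ∫ v in (A * D)..((B + 1) * D), gg T δ v * Real.exp (-(2 * (a / D) * v)) := by
    refine intervalIntegral.integral_mono_on hv (GG_outer_int hT1 hδ.le hδs.le hs11.le hv _)
      (GG_outer_int hT1 hδ.le hδ1.le le_rfl hv _) fun v hv' => ?_
    apply mul_le_mul_of_nonneg_right _ (Real.exp_pos _).le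
    exact intervalIntegral.integral_mono_interval le_rfl hδs.le hs11.le
        (ae_of_all _ fun s => GG_nonneg _ _ _) (GG_s_int hT1 hδ.le hδ1.le le_rfl v)
  refine le_trans ?_ (c1.trans c2)
  have c9 : s1 - δ = (1 - ε / 4) * (1 - δ) := by rw [hs1]; ring
  rw [c9]
  have c11 : 1 - ε ≤ (1 - ε / 4) * (1 - ε / 4) ^ 2 := by
    have : (1 - ε / 4) ^ 2 ≥ 1 - ε / 2 := by nlinarith [sq_nonneg (ε / 4)]
    nlinarith
  calc (1 - ε) * (1 - δ) / (2 * a) * (D ^ 2 / T) = (1 - ε) * ((1 - δ) * (1 / (2 * a) * (D ^ 2 / T))) := by ring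
    _ ≤ ((1 - ε / 4) * (1 - ε / 4) ^ 2) * ((1 - δ) * (1 / (2 * a) * (D ^ 2 / T))) :=
        mul_le_mul_of_nonneg_right c11 (by positivity)
    _ = _ := by ring

/-- the mean square for the intervals of length `X / T` -/
lemma mean_eq {T δ v : ℝ} (hT : 1 ≤ T) (hδ : 1 / (2 * T) < δ) (hδ1 : δ ≤ 1) :
    (1 / Real.exp v) * ∫ x in (δ * Real.exp v)..(Real.exp v), |psi x (Real.exp v / T) - Real.exp v / T| ^ 2 =
      Real.exp v * gg T δ v := by
  have hT0 : 0 < T := by linarith
  have he := Real.exp_pos v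
  have h1 := intervalIntegral.mul_integral_comp_mul_left (a := δ) (b := 1)
    (f := fun x => |psi x (Real.exp v / T) - Real.exp v / T| ^ 2) (Real.exp v)
  rw [mul_one, mul_comm (Real.exp v) δ] at h1
  rw [← h1, ← mul_assoc, one_div_mul_cancel he.ne', one_mul]
  unfold gg
  rw [← intervalIntegral.integral_const_mul]
  refine intervalIntegral.integral_congr_ae ?_
  have hnull : ∀ᵐ s : ℝ, ∀ n : ℕ, (n : ℝ) ≠ Real.exp v * s - Real.exp v / T / 2 := by
    rw [ae_all_iff]
    intro n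
    have : {s : ℝ | ¬ ((n : ℝ) ≠ Real.exp v * s - Real.exp v / T / 2)} =
        {((n : ℝ) + Real.exp v / T / 2) / Real.exp v} := by
      ext s
      simp only [ne_eq, not_not, Set.mem_ofPred_eq, Set.mem_singleton_iff]
      rw [eq_div_iff he.ne']
      constructor
      · intro h; linarith
      · intro h; linarith
    rw [ae_iff, this]
    exact Real.volume_singleton
  filter_upwards [hnull] with s hs hs2
  rw [uIoc_of_le hδ1] at hs2
  have hH : 0 ≤ Real.exp v / T := by positivity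
  have hx : Real.exp v / T / 2 < Real.exp v * s := by
    have h2 : 1 / (2 * T) < s := hδ.trans hs2.1
    have e : Real.exp v / T / 2 = Real.exp v * (1 / (2 * T)) := by field_simp
    rw [e]
    exact mul_lt_mul_of_pos_left h2 he
  rw [psi_eq _ _ hH hx hs, sq_abs]
  unfold GG
  have e1 : Real.exp v * s + Real.exp v / T / 2 = (s + 1 / (2 * T)) * Real.exp v := by field_simp
  have e2 : Real.exp v * s - Real.exp v / T / 2 = (s - 1 / (2 * T)) * Real.exp v := by field_simp
  rw [e1, e2, Real.exp_neg, ← mul_assoc, mul_inv_cancel₀ he.ne', one_mul]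

/-- the quotient of the two sides of the conjectured formula -/
noncomputable def Qt (δ X H : ℝ) : ℝ :=
  ((1 / X) * ∫ x in (δ * X)..X, |psi x H - H| ^ 2) /
    (H * (Real.log X - Real.log H - (Real.eulerMascheroniConstant + Real.log (2 * Real.pi))))

lemma c_pos : 0 < Real.eulerMascheroniConstant + Real.log (2 * Real.pi) := by
  have h1 := Real.one_half_lt_eulerMascheroniConstant
  have h2 : 0 < Real.log (2 * Real.pi) := Real.log_pos (by linarith [Real.pi_gt_three])
  linarith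

lemma Qt_eq {T δ b : ℝ} (hT : 1 ≤ T) (hδ : 1 / (2 * T) < δ) (hδ1 : δ ≤ 1) :
    Qt δ (T ^ b) (T ^ b / T) =
      T / (Real.log T - (Real.eulerMascheroniConstant + Real.log (2 * Real.pi))) * gg T δ (b * Real.log T) := by
  have hT0 : 0 < T := by linarith
  have e : T ^ b = Real.exp (b * Real.log T) := by rw [Real.rpow_def_of_pos hT0, mul_comm]
  have hp : 0 < T ^ b := Real.rpow_pos_of_pos hT0 b
  unfold Qt
  have e2 : Real.log (T ^ b) - Real.log (T ^ b / T) = Real.log T := by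
    rw [Real.log_div hp.ne' hT0.ne']; ring
  rw [e2, e, mean_eq hT hδ hδ1]
  have he := (Real.exp_pos (b * Real.log T)).ne'
  set y := Real.log T - (Real.eulerMascheroniConstant + Real.log (2 * Real.pi))
  by_cases hy : y = 0
  · rw [hy]; simp
  · field_simp

/-- **the main theorem** -/
theorem main {A δ ε : ℝ} (hA : 0 ≤ A) (hδ : 0 < δ) (hδ1 : δ < 1) (hε : 0 < ε) :
    ∃ a₀ : ℝ, 0 < a₀ ∧ ∀ a : ℝ, 0 < a → a ≤ a₀ → ∃ B T₀ : ℝ, A < B ∧ ∀ T : ℝ, T₀ ≤ T →
      (1 - ε) * (1 - δ) ≤ a * ∫ b in A..B, Real.exp (-(a * b)) * Qt δ (T ^ b) (T ^ b / T) := by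
  set ε' : ℝ := min ε 1 with hε'
  have h0 : 0 < ε' := lt_min hε one_pos
  have h1 : ε' ≤ 1 := min_le_right _ _
  obtain ⟨a0, ha0, h⟩ := mean_low hA hδ hδ1 h0 h1
  refine ⟨2 * a0, by positivity, fun a ha haa => ?_⟩
  obtain ⟨B, hAB, hB⟩ := h (a / 2) (by positivity) (by linarith)
  have hB2 := hB.and ((eventually_gt_atTop (1 / (2 * δ))).and ((eventually_ge_atTop 1).and
    (Real.tendsto_log_atTop.eventually_gt_atTop
      (Real.eulerMascheroniConstant + Real.log (2 * Real.pi)))))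
  obtain ⟨T0, hT0⟩ := hB2.exists_forall_of_atTop
  refine ⟨B, T0, hAB, fun T hT => ?_⟩
  obtain ⟨hm, k1, k2, k3⟩ := hT0 T hT
  have hTp : 0 < T := by linarith
  have hc := c_pos
  set c := Real.eulerMascheroniConstant + Real.log (2 * Real.pi) with hcd
  have hD : 0 < Real.log T := by linarith
  have hδT : 1 / (2 * T) < δ := by
    rw [div_lt_iff₀ (by positivity)] at k1 ⊢
    linarith
  have e1 : ∫ b in A..B, Real.exp (-(a * b)) * Qt δ (T ^ b) (T ^ b / T) =
      T / (Real.log T - c) * (1 / Real.log T) *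
        ∫ v in (A * Real.log T)..(B * Real.log T), gg T δ v * Real.exp (-(2 * (a / 2 / Real.log T) * v)) := by
    have h2 := intervalIntegral.integral_comp_mul_right (a := A) (b := B)
      (fun v => gg T δ v * Real.exp (-(2 * (a / 2 / Real.log T) * v))) hD.ne'
    have h3 : ∫ b in A..B, Real.exp (-(a * b)) * Qt δ (T ^ b) (T ^ b / T) =
        ∫ b in A..B, T / (Real.log T - c) * (gg T δ (b * Real.log T) *
          Real.exp (-(2 * (a / 2 / Real.log T) * (b * Real.log T)))) := by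
      refine intervalIntegral.integral_congr fun b _ => ?_
      show Real.exp (-(a * b)) * Qt δ (T ^ b) (T ^ b / T) = _
      rw [Qt_eq k2 hδT hδ1.le]
      have e : 2 * (a / 2 / Real.log T) * (b * Real.log T) = a * b := by field_simp
      rw [e]
      ring
    rw [h3, intervalIntegral.integral_const_mul, h2, smul_eq_mul, one_div]
    ring
  rw [e1]
  have hDc : 0 < Real.log T - c := by linarith
  have h4 : (1 - ε') * (1 - δ) ≤ a * (T / (Real.log T - c) * (1 / Real.log T) *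
      ((1 - ε') * (1 - δ) / (2 * (a / 2)) * (Real.log T ^ 2 / T))) := by
    have e2 : a * (T / (Real.log T - c) * (1 / Real.log T) *
      ((1 - ε') * (1 - δ) / (2 * (a / 2)) * (Real.log T ^ 2 / T))) =
      (1 - ε') * (1 - δ) * (Real.log T / (Real.log T - c)) := by field_simp
    rw [e2]
    have h5 : 1 ≤ Real.log T / (Real.log T - c) := by
      rw [le_div_iff₀ hDc]; linarith
    have h6 : 0 ≤ (1 - ε') * (1 - δ) := mul_nonneg (by linarith) (by linarith)
    nlinarith
  have h7 : (1 - ε) * (1 - δ) ≤ (1 - ε') * (1 - δ) := by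
    apply mul_le_mul_of_nonneg_right _ (by linarith)
    have : ε' ≤ ε := min_le_left _ _
    linarith
  refine h7.trans (h4.trans ?_)
  apply mul_le_mul_of_nonneg_left _ ha.le
  exact mul_le_mul_of_nonneg_left hm (by positivity)

lemma exp_int_lt {c v1 v2 : ℝ} (hc : 0 < c) (hv1 : 0 ≤ v1) :
    c * ∫ v in v1..v2, Real.exp (-(c * v)) < 1 := by
  have h : ∀ x ∈ uIcc v1 v2, HasDerivAt (fun v => -(1 / c) * Real.exp (-(c * v))) (Real.exp (-(c * x))) x := by
    intro x _
    have h1 : HasDerivAt (fun v : ℝ => -(c * v)) (-c) x := by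
      simpa using ((hasDerivAt_id x).const_mul c).fun_neg
    have h2 := (h1.exp).const_mul (-(1 / c))
    refine h2.congr_deriv ?_
    field_simp
  rw [intervalIntegral.integral_eq_sub_of_hasDerivAt h
    ((by fun_prop : Continuous fun v => Real.exp (-(c * v))).intervalIntegrable _ _)]
  have h2 : Real.exp (-(c * v1)) ≤ 1 := Real.exp_le_one_iff.2 (by have := mul_nonneg hc.le hv1; linarith)
  have h3 := Real.exp_pos (-(c * v2))
  have e : c * (-(1 / c) * Real.exp (-(c * v2)) - -(1 / c) * Real.exp (-(c * v1))) =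
      Real.exp (-(c * v1)) - Real.exp (-(c * v2)) := by field_simp; ring
  rw [e]
  linarith

/-- a mean is at most the supremum -/
lemma exists_of_mean {A B a M : ℝ} {f : ℝ → ℝ} (ha : 0 < a) (hA : 0 ≤ A) (hAB : A ≤ B) (hM : 0 < M)
    (h : M ≤ a * ∫ b in A..B, Real.exp (-(a * b)) * f b) : ∃ b ∈ Icc A B, M ≤ f b := by
  by_contra hcon
  push Not at hcon
  have hi : IntervalIntegrable (fun b => Real.exp (-(a * b)) * f b) volume A B := by
    by_contra hni
    rw [intervalIntegral.integral_undef hni] at h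
    linarith
  have h1 : ∫ b in A..B, Real.exp (-(a * b)) * f b ≤ ∫ b in A..B, Real.exp (-(a * b)) * M :=
    intervalIntegral.integral_mono_on hAB hi
      ((by fun_prop : Continuous fun b : ℝ => Real.exp (-(a * b)) * M).intervalIntegrable _ _)
      fun b hb => mul_le_mul_of_nonneg_left (hcon b hb).le (Real.exp_pos _).le
  rw [intervalIntegral.integral_mul_const] at h1
  have h2 := exp_int_lt (v2 := B) ha hA
  have h3 := mul_le_mul_of_nonneg_left h1 ha.le
  nlinarith

/-- **the main theorem with the existence of a point** -/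
theorem main' {A δ ε : ℝ} (hA : 0 ≤ A) (hδ : 0 < δ) (hδ1 : δ < 1) (hε : 0 < ε) (hε1 : ε < 1) :
    ∃ a₀ : ℝ, 0 < a₀ ∧ ∀ a : ℝ, 0 < a → a ≤ a₀ → ∃ B T₀ : ℝ, A < B ∧ ∀ T : ℝ, T₀ ≤ T →
      (1 - ε) * (1 - δ) ≤ a * (∫ b in A..B, Real.exp (-(a * b)) * Qt δ (T ^ b) (T ^ b / T)) ∧
      ∃ b ∈ Icc A B, (1 - ε) * (1 - δ) ≤ Qt δ (T ^ b) (T ^ b / T) := by
  obtain ⟨a0, ha0, h⟩ := main hA hδ hδ1 hε
  refine ⟨a0, ha0, fun a ha haa => ?_⟩
  obtain ⟨B, T0, hAB, hB⟩ := h a ha haa
  refine ⟨B, T0, hAB, fun T hT => ?_⟩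
  have h1 := hB T hT
  exact ⟨h1, exists_of_mean ha hA hAB.le (mul_pos (by linarith) (by linarith)) h1⟩

end Pool.Agent.Q260.LB
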